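import Pool.Agent.H447R3.KuB

open CategoryTheory AlgebraicGeometry

universe u v

open Pool.Agent.H914 Pool.Agent.H914.VarClass Pool.Agent.H914.VarClass.Obj Pool.Agent.H447

/-- **The Kunneth standard conjecture can be tested modulo numerical equivalence.** Let `X` be a
smooth proper variety of dimension `n` over an algebraically closed field and `W` a Weil cohomology
theory. The Kunneth components `π i` of the diagonal are algebraic if and only if there are cycles
`z i` of codimension `n` on `X × X` which have the same intersection numbers as the `π i` with all
cycles of codimension `n`, and which are orthogonal projectors modulo numerical equivalence. -/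
theorem Pool.Agent.Results.MP_a60482_ag.NumericalProjectors.result {k : Type u} [Field k]
    [IsAlgClosed k] {𝒱 : VarClass k} {ops : CycleOps 𝒱} (W : WeilCohomology.{u, v} ops)
    (X : 𝒱.Obj) : KunnethStd W X ↔ KunnethNum W X :=
  kunneth_iff_num
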